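import Mathlib

/-! An uncountable Pauli set of boundedly supported functions without isolated points. -/

open MeasureTheory Complex Set Filter Topology
open scoped Real

noncomputable section

namespace Pool.Agent.Results.MP_d886ff_an.UncountablePauliSet

/-- The Fourier transform `f̂(x) = ∫ e^{-ixy} f(y) dy` (for integrable `f`). -/
def FT (f : ℝ → ℂ) (x : ℝ) : ℂ := ∫ y : ℝ, Complex.exp (-(Complex.I * x * y)) * f y

/-- `f` vanishes a.e. outside some bounded interval. -/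
def BoundedSupport (f : Lp ℂ 2 (volume : Measure ℝ)) : Prop :=
  ∃ R : ℝ, ∀ᵐ x, R < |x| → f x = 0

/-- A Pauli pair of boundedly supported (hence integrable) functions: linearly independent, with
`|f| = |g|` and `|f̂| = |ĝ|`. -/
def IsPauliPair (f g : Lp ℂ 2 (volume : Measure ℝ)) : Prop :=
  LinearIndependent ℂ ![f, g] ∧ (∀ᵐ x, ‖f x‖ = ‖g x‖) ∧ ∀ᵐ x, ‖FT f x‖ = ‖FT g x‖

/-- A Pauli set of boundedly supported functions. -/
def IsBoundedPauliSet (P : Set (Lp ℂ 2 (volume : Measure ℝ))) : Prop :=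
  P.Nontrivial ∧ (∀ f ∈ P, BoundedSupport f) ∧ ∀ f ∈ P, ∀ g ∈ P, f ≠ g → IsPauliPair f g

/-! ### Ternary digits -/

/-- indicator that the `n`-th ternary digit is `1` -/
def dig (n : ℕ) (x : ℝ) : ℝ := if ⌊(3 : ℝ) ^ (n + 1) * x⌋ % 3 = 1 then 1 else 0

lemma dig_nonneg (n : ℕ) (x : ℝ) : 0 ≤ dig n x := by unfold dig; split_ifs <;> norm_num
lemma dig_le_one (n : ℕ) (x : ℝ) : dig n x ≤ 1 := by unfold dig; split_ifs <;> norm_num

lemma measurable_dig (n : ℕ) : Measurable (dig n) := by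
  unfold dig
  apply Measurable.ite
  · have h1 : Measurable (fun x : ℝ => ⌊(3 : ℝ) ^ (n + 1) * x⌋) :=
      Int.measurable_floor.comp (measurable_const.mul measurable_id)
    have h2 : MeasurableSet {m : ℤ | m % 3 = 1} := MeasurableSet.of_discrete
    exact h1 h2
  · exact measurable_const
  · exact measurable_const

lemma dig_zero_scale (j : ℤ) (hj : 0 ≤ j ∧ j < 3) (y : ℝ) (hy : 0 ≤ y ∧ y < 1) :
    dig 0 ((j + y) / 3) = if j = 1 then 1 else 0 := by
  unfold dig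
  have e : (3 : ℝ) ^ (0 + 1) * (((j : ℝ) + y) / 3) = j + y := by ring
  rw [e]
  have h1 : ⌊(j : ℝ) + y⌋ = j := by
    rw [Int.floor_eq_iff]
    constructor <;> linarith [hy.1, hy.2]
  rw [h1]
  have : j % 3 = j := Int.emod_eq_of_lt hj.1 hj.2
  rw [this]

lemma dig_succ_scale (n : ℕ) (j : ℤ) (y : ℝ) : dig (n + 1) (((j : ℝ) + y) / 3) = dig n y := by
  unfold dig
  have e : (3 : ℝ) ^ (n + 1 + 1) * (((j : ℝ) + y) / 3) =
      (3 : ℝ) ^ (n + 1) * y + ((3 ^ (n + 1) * j : ℤ) : ℝ) := by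
    push_cast
    ring
  rw [e, Int.floor_add_intCast]
  have h : (⌊(3 : ℝ) ^ (n + 1) * y⌋ + 3 ^ (n + 1) * j) % 3 = ⌊(3 : ℝ) ^ (n + 1) * y⌋ % 3 := by
    rw [show (3 : ℤ) ^ (n + 1) * j = 3 * (3 ^ n * j) by ring]
    exact Int.add_mul_emod_self_left _ _ _
  rw [h]

/-- The phase `∑ θ_n dig_n(x)`. -/
def Phi (θ : ℕ → ℝ) (x : ℝ) : ℝ := ∑' n, θ n * dig n x

lemma summable_Phi {θ : ℕ → ℝ} (hθ : Summable fun n => |θ n|) (x : ℝ) :
    Summable (fun n => θ n * dig n x) := by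
  apply Summable.of_norm_bounded hθ
  intro n
  rw [Real.norm_eq_abs, abs_mul, abs_of_nonneg (dig_nonneg n x)]
  exact mul_le_of_le_one_right (abs_nonneg _) (dig_le_one n x)

lemma measurable_Phi {θ : ℕ → ℝ} (hθ : Summable fun n => |θ n|) : Measurable (Phi θ) := by
  apply measurable_of_tendsto_metrizable
    (f := fun (N : ℕ) (x : ℝ) => ∑ n ∈ Finset.range N, θ n * dig n x)
  · intro N
    apply Finset.measurable_fun_sum
    intro n _
    exact measurable_const.mul (measurable_dig n)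
  · rw [tendsto_pi_nhds]
    intro x
    exact (summable_Phi hθ x).hasSum.tendsto_sum_nat

lemma Phi_scale {θ : ℕ → ℝ} (hθ : Summable fun n => |θ n|) (j : ℤ) (hj : 0 ≤ j ∧ j < 3) (y : ℝ)
    (hy : 0 ≤ y ∧ y < 1) :
    Phi θ (((j : ℝ) + y) / 3) = (if j = 1 then θ 0 else 0) + Phi (fun n => θ (n + 1)) y := by
  unfold Phi
  rw [(summable_Phi hθ _).tsum_eq_zero_add, dig_zero_scale j hj y hy]
  simp_rw [dig_succ_scale]
  congr 1
  split_ifs <;> simp

lemma abs_Phi_le {θ : ℕ → ℝ} (hθ : Summable fun n => |θ n|) (x : ℝ) :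
    |Phi θ x| ≤ ∑' n, |θ n| := by
  have h1 := norm_tsum_le_tsum_norm (summable_Phi hθ x).norm
  rw [Real.norm_eq_abs] at h1
  refine h1.trans ((summable_Phi hθ x).norm.tsum_le_tsum (fun n => ?_) hθ)
  rw [Real.norm_eq_abs, abs_mul, abs_of_nonneg (dig_nonneg n x)]
  exact mul_le_of_le_one_right (abs_nonneg _) (dig_le_one n x)

/-- The function `e^{iΦ}` on `[0,1)`. -/
def fn (θ : ℕ → ℝ) (x : ℝ) : ℂ :=
  (Ico (0 : ℝ) 1).indicator (fun x => Complex.exp ((Phi θ x : ℂ) * Complex.I)) x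

lemma measurable_fn {θ : ℕ → ℝ} (hθ : Summable fun n => |θ n|) : Measurable (fn θ) := by
  unfold fn
  apply Measurable.indicator _ measurableSet_Ico
  have := measurable_Phi hθ
  fun_prop

lemma norm_fn_le (θ : ℕ → ℝ) (x : ℝ) : ‖fn θ x‖ ≤ 1 := by
  unfold fn
  by_cases hx : x ∈ Ico (0 : ℝ) 1
  · rw [indicator_of_mem hx, Complex.norm_exp_ofReal_mul_I]
  · rw [indicator_of_notMem hx]; simp

lemma norm_fn (θ : ℕ → ℝ) (x : ℝ) : ‖fn θ x‖ = if x ∈ Ico (0 : ℝ) 1 then 1 else 0 := by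
  unfold fn
  by_cases hx : x ∈ Ico (0 : ℝ) 1
  · rw [indicator_of_mem hx, Complex.norm_exp_ofReal_mul_I, if_pos hx]
  · rw [indicator_of_notMem hx, if_neg hx]; simp

/-- The integral over `[0,1)` defining the transform. -/
def G (θ : ℕ → ℝ) (ξ : ℝ) : ℂ :=
  ∫ x in (0 : ℝ)..1, Complex.exp (-(Complex.I * ξ * x)) * Complex.exp ((Phi θ x : ℂ) * Complex.I)

lemma FT_fn (θ : ℕ → ℝ) (ξ : ℝ) : FT (fn θ) ξ = G θ ξ := by
  unfold FT G fn
  rw [intervalIntegral.integral_of_le zero_le_one, ← integral_Ico_eq_integral_Ioc,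
    ← integral_indicator measurableSet_Ico]
  congr 1
  funext x
  by_cases hx : x ∈ Ico (0 : ℝ) 1
  · rw [indicator_of_mem hx, indicator_of_mem hx]
  · rw [indicator_of_notMem hx, indicator_of_notMem hx, mul_zero]

lemma intervalIntegrable_G {θ : ℕ → ℝ} (hθ : Summable fun n => |θ n|) (ξ a b : ℝ) :
    IntervalIntegrable (fun x : ℝ => Complex.exp (-(Complex.I * ξ * x)) *
      Complex.exp ((Phi θ x : ℂ) * Complex.I)) volume a b := by
  have hm : Measurable (fun x : ℝ => Complex.exp (-(Complex.I * ξ * x)) *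
      Complex.exp ((Phi θ x : ℂ) * Complex.I)) := by
    have := measurable_Phi hθ
    fun_prop
  have hb : ∀ x : ℝ, ‖Complex.exp (-(Complex.I * ξ * x)) *
      Complex.exp ((Phi θ x : ℂ) * Complex.I)‖ ≤ 1 := by
    intro x
    rw [norm_mul, Complex.norm_exp_ofReal_mul_I, mul_one,
      show -(Complex.I * ξ * x) = ((-(ξ * x) : ℝ) : ℂ) * Complex.I by push_cast; ring,
      Complex.norm_exp_ofReal_mul_I]
  rw [intervalIntegrable_iff]
  refine Measure.integrableOn_of_bounded (M := 1) ?_ hm.aestronglyMeasurable ?_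
  · rw [Set.uIoc, Real.volume_Ioc]
    exact ENNReal.ofReal_ne_top
  · filter_upwards with x using hb x

lemma piece {θ : ℕ → ℝ} (hθ : Summable fun n => |θ n|) (ξ : ℝ) (j : ℤ) (hj : 0 ≤ j ∧ j < 3) :
    ∫ x in ((j : ℝ) / 3)..(((j : ℝ) + 1) / 3), Complex.exp (-(Complex.I * ξ * x)) *
      Complex.exp ((Phi θ x : ℂ) * Complex.I) =
    (1 / 3) * Complex.exp (-(Complex.I * (ξ / 3 : ℝ) * j)) *
      Complex.exp (((if j = 1 then θ 0 else 0 : ℝ) : ℂ) * Complex.I) *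
      G (fun n => θ (n + 1)) (ξ / 3) := by
  have h1 := intervalIntegral.integral_comp_div_add (a := (0 : ℝ)) (b := 1)
    (fun x : ℝ => Complex.exp (-(Complex.I * ξ * x)) *
      Complex.exp ((Phi θ x : ℂ) * Complex.I)) (by norm_num : (3 : ℝ) ≠ 0) ((j : ℝ) / 3)
  have e1 : (0 : ℝ) / 3 + (j : ℝ) / 3 = (j : ℝ) / 3 := by ring
  have e2 : (1 : ℝ) / 3 + (j : ℝ) / 3 = ((j : ℝ) + 1) / 3 := by ring
  rw [e1, e2] at h1
  have h2 : ∫ x in ((j : ℝ) / 3)..(((j : ℝ) + 1) / 3), Complex.exp (-(Complex.I * ξ * x)) *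
      Complex.exp ((Phi θ x : ℂ) * Complex.I) = (1 / 3 : ℂ) *
      ∫ x in (0 : ℝ)..1, Complex.exp (-(Complex.I * ξ * ((x / 3 + (j : ℝ) / 3 : ℝ) : ℂ))) *
      Complex.exp ((Phi θ (x / 3 + (j : ℝ) / 3) : ℂ) * Complex.I) := by
    rw [h1]
    simp only [Complex.real_smul]
    push_cast
    ring
  rw [h2, mul_assoc, mul_assoc]
  congr 1
  unfold G
  rw [← mul_assoc, ← intervalIntegral.integral_const_mul]
  rw [intervalIntegral.integral_of_le zero_le_one, intervalIntegral.integral_of_le zero_le_one,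
    ← integral_Ico_eq_integral_Ioc, ← integral_Ico_eq_integral_Ioc]
  apply setIntegral_congr_fun measurableSet_Ico
  intro x hx
  simp only
  have e3 : x / 3 + (j : ℝ) / 3 = ((j : ℝ) + x) / 3 := by ring
  rw [e3, Phi_scale hθ j hj x hx, Complex.ofReal_add, add_mul, Complex.exp_add]
  have e4 : Complex.exp (-(Complex.I * ξ * ((((j : ℝ) + x) / 3 : ℝ) : ℂ))) =
      Complex.exp (-(Complex.I * (ξ / 3 : ℝ) * j)) *
        Complex.exp (-(Complex.I * ((ξ / 3 : ℝ) : ℂ) * x)) := by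
    rw [← Complex.exp_add]
    congr 1
    push_cast
    ring
  rw [e4]
  ring

lemma G_rec {θ : ℕ → ℝ} (hθ : Summable fun n => |θ n|) (ξ : ℝ) :
    G θ ξ = (1 / 3) * (1 + Complex.exp ((θ 0 : ℂ) * Complex.I) *
      Complex.exp (-(Complex.I * (ξ / 3 : ℝ))) + Complex.exp (-(Complex.I * (ξ / 3 : ℝ) * 2))) *
      G (fun n => θ (n + 1)) (ξ / 3) := by
  have h0 := piece hθ ξ 0 (by norm_num)
  have h1 := piece hθ ξ 1 (by norm_num)
  have h2 := piece hθ ξ 2 (by norm_num)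
  norm_num at h0 h1 h2
  have hsplit : G θ ξ = (∫ x in (0 : ℝ)..(1 / 3), Complex.exp (-(Complex.I * ξ * x)) *
      Complex.exp ((Phi θ x : ℂ) * Complex.I)) + (∫ x in (1 / 3 : ℝ)..(2 / 3),
        Complex.exp (-(Complex.I * ξ * x)) * Complex.exp ((Phi θ x : ℂ) * Complex.I)) +
      ∫ x in (2 / 3 : ℝ)..1, Complex.exp (-(Complex.I * ξ * x)) *
      Complex.exp ((Phi θ x : ℂ) * Complex.I) := by
    rw [intervalIntegral.integral_add_adjacent_intervals (intervalIntegrable_G hθ ξ _ _)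
      (intervalIntegrable_G hθ ξ _ _), intervalIntegral.integral_add_adjacent_intervals
      (intervalIntegrable_G hθ ξ _ _) (intervalIntegrable_G hθ ξ _ _)]
    rfl
  rw [hsplit, h0, h1, h2]
  push_cast
  ring

lemma factor_norm_eq (a b ξ : ℝ) (hab : |a| = |b|) :
    ‖(1 + Complex.exp ((a : ℂ) * Complex.I) *
      Complex.exp (-(Complex.I * (ξ / 3 : ℝ))) + Complex.exp (-(Complex.I * (ξ / 3 : ℝ) * 2)))‖ =
    ‖(1 + Complex.exp ((b : ℂ) * Complex.I) *
      Complex.exp (-(Complex.I * (ξ / 3 : ℝ))) + Complex.exp (-(Complex.I * (ξ / 3 : ℝ) * 2)))‖ := by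
  have key : ∀ c : ℝ, (1 + Complex.exp ((c : ℂ) * Complex.I) *
      Complex.exp (-(Complex.I * (ξ / 3 : ℝ))) + Complex.exp (-(Complex.I * (ξ / 3 : ℝ) * 2))) =
      Complex.exp (-(Complex.I * (ξ / 3 : ℝ))) *
        (((2 * Real.cos (ξ / 3) : ℝ) : ℂ) + Complex.exp ((c : ℂ) * Complex.I)) := by
    intro c
    have hcos : ((2 * Real.cos (ξ / 3) : ℝ) : ℂ) = Complex.exp (Complex.I * (ξ / 3 : ℝ)) +
        Complex.exp (-(Complex.I * (ξ / 3 : ℝ))) := by
      push_cast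
      rw [Complex.cos]
      rw [mul_comm Complex.I]
      ring_nf
    rw [hcos]
    have e1 : Complex.exp (-(Complex.I * (ξ / 3 : ℝ))) * Complex.exp (Complex.I * (ξ / 3 : ℝ)) = 1 := by
      rw [← Complex.exp_add, neg_add_cancel, Complex.exp_zero]
    have e2 : Complex.exp (-(Complex.I * (ξ / 3 : ℝ) * 2)) =
        Complex.exp (-(Complex.I * (ξ / 3 : ℝ))) * Complex.exp (-(Complex.I * (ξ / 3 : ℝ))) := by
      rw [← Complex.exp_add]
      congr 1
      ring
    rw [e2]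
    linear_combination (-1 : ℂ) * e1
  rw [key a, key b, norm_mul, norm_mul]
  congr 1
  rcases abs_eq_abs.1 hab with h | h
  · rw [h]
  · rw [h]
    have : ((2 * Real.cos (ξ / 3) : ℝ) : ℂ) + Complex.exp (((-b : ℝ) : ℂ) * Complex.I) =
        (starRingEnd ℂ) (((2 * Real.cos (ξ / 3) : ℝ) : ℂ) + Complex.exp ((b : ℂ) * Complex.I)) := by
      rw [map_add, Complex.conj_ofReal, ← Complex.exp_conj, map_mul, Complex.conj_ofReal,
        Complex.conj_I]
      push_cast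
      ring_nf
    rw [this, RCLike.norm_conj]

lemma norm_e (ξ c : ℝ) : ‖Complex.exp (-(Complex.I * (ξ : ℂ) * (c : ℂ)))‖ = 1 := by
  rw [show -(Complex.I * ξ * c) = ((-(ξ * c) : ℝ) : ℂ) * Complex.I by push_cast; ring,
      Complex.norm_exp_ofReal_mul_I]

lemma factor_norm_le (a ξ : ℝ) :
    ‖(1 / 3 : ℂ) * (1 + Complex.exp ((a : ℂ) * Complex.I) *
      Complex.exp (-(Complex.I * (ξ / 3 : ℝ))) +
        Complex.exp (-(Complex.I * (ξ / 3 : ℝ) * 2)))‖ ≤ 1 := by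
  rw [norm_mul]
  have h1 : ‖Complex.exp (-(Complex.I * (ξ / 3 : ℝ)))‖ = 1 := by
    have := norm_e (ξ / 3) 1
    rw [Complex.ofReal_one, mul_one] at this
    exact this
  have h2 : ‖Complex.exp (-(Complex.I * (ξ / 3 : ℝ) * 2))‖ = 1 := by
    have := norm_e (ξ / 3) 2
    push_cast at this ⊢
    exact this
  have h3 : ‖(1 + Complex.exp ((a : ℂ) * Complex.I) *
      Complex.exp (-(Complex.I * (ξ / 3 : ℝ))) +
        Complex.exp (-(Complex.I * (ξ / 3 : ℝ) * 2)))‖ ≤ 3 := by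
    calc _ ≤ ‖(1 : ℂ) + Complex.exp ((a : ℂ) * Complex.I) *
          Complex.exp (-(Complex.I * (ξ / 3 : ℝ)))‖ +
          ‖Complex.exp (-(Complex.I * (ξ / 3 : ℝ) * 2))‖ := norm_add_le _ _
      _ ≤ (‖(1 : ℂ)‖ + ‖Complex.exp ((a : ℂ) * Complex.I) *
          Complex.exp (-(Complex.I * (ξ / 3 : ℝ)))‖) + 1 := by
            rw [h2]
            gcongr
            exact norm_add_le _ _
      _ = 3 := by
          rw [norm_mul, h1, Complex.norm_exp_ofReal_mul_I]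
          norm_num
  have h4 : ‖(1 / 3 : ℂ)‖ = 1 / 3 := by norm_num
  rw [h4]
  linarith

lemma norm_G_sub_le {θ θ' : ℕ → ℝ} (hθ : Summable fun n => |θ n|)
    (hθ' : Summable fun n => |θ' n|) (h : ∀ n, |θ n| = |θ' n|) (ξ : ℝ) :
    |‖G θ ξ‖ - ‖G θ' ξ‖| ≤ 2 * ∑' n, |θ n| := by
  refine (abs_norm_sub_norm_le _ _).trans ?_
  unfold G
  rw [← intervalIntegral.integral_sub (intervalIntegrable_G hθ ξ _ _)
    (intervalIntegrable_G hθ' ξ _ _)]
  have hb : ∀ x ∈ Set.uIoc (0 : ℝ) 1, ‖Complex.exp (-(Complex.I * ξ * x)) *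
      Complex.exp ((Phi θ x : ℂ) * Complex.I) - Complex.exp (-(Complex.I * ξ * x)) *
      Complex.exp ((Phi θ' x : ℂ) * Complex.I)‖ ≤ 2 * ∑' n, |θ n| := by
    intro x _
    rw [← mul_sub, norm_mul, norm_e, one_mul]
    have e1 : Complex.exp ((Phi θ x : ℂ) * Complex.I) - Complex.exp ((Phi θ' x : ℂ) * Complex.I) =
        Complex.exp ((Phi θ' x : ℂ) * Complex.I) *
          (Complex.exp (Complex.I * ((Phi θ x - Phi θ' x : ℝ) : ℂ)) - 1) := by
      rw [mul_sub, mul_one, ← Complex.exp_add]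
      congr 2
      push_cast
      ring
    rw [e1, norm_mul, Complex.norm_exp_ofReal_mul_I, one_mul]
    refine Real.norm_exp_I_mul_ofReal_sub_one_le.trans ?_
    rw [Real.norm_eq_abs]
    have h1 := abs_Phi_le hθ x
    have h2 := abs_Phi_le hθ' x
    have h3 : ∑' n, |θ' n| = ∑' n, |θ n| := by
      congr 1
      funext n
      exact (h n).symm
    rw [h3] at h2
    calc |Phi θ x - Phi θ' x| ≤ |Phi θ x| + |Phi θ' x| := abs_sub _ _
      _ ≤ _ := by linarith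
  have := intervalIntegral.norm_integral_le_of_norm_le_const hb
  simpa using this

lemma norm_G_sub_le' (N : ℕ) : ∀ {θ θ' : ℕ → ℝ} (_ : Summable fun n => |θ n|)
    (_ : Summable fun n => |θ' n|) (_ : ∀ n, |θ n| = |θ' n|) (ξ : ℝ),
    |‖G θ ξ‖ - ‖G θ' ξ‖| ≤ 2 * ∑' n, |θ (n + N)| := by
  induction N with
  | zero =>
    intro θ θ' hθ hθ' h ξ
    exact norm_G_sub_le hθ hθ' h ξ
  | succ N ih =>
    intro θ θ' hθ hθ' h ξ
    have hs : Summable fun n => |θ (n + 1)| := (summable_nat_add_iff 1).2 hθ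
    have hs' : Summable fun n => |θ' (n + 1)| := (summable_nat_add_iff 1).2 hθ'
    have := ih hs hs' (fun n => h (n + 1)) (ξ / 3)
    have g1 : ‖G θ ξ‖ = ‖(1 / 3 : ℂ) * (1 + Complex.exp ((θ 0 : ℂ) * Complex.I) *
        Complex.exp (-(Complex.I * (ξ / 3 : ℝ))) + Complex.exp (-(Complex.I * (ξ / 3 : ℝ) * 2)))‖ *
        ‖G (fun n => θ (n + 1)) (ξ / 3)‖ := by
      rw [← norm_mul, ← G_rec hθ]
    have g2 : ‖G θ' ξ‖ = ‖(1 / 3 : ℂ) * (1 + Complex.exp ((θ' 0 : ℂ) * Complex.I) *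
        Complex.exp (-(Complex.I * (ξ / 3 : ℝ))) + Complex.exp (-(Complex.I * (ξ / 3 : ℝ) * 2)))‖ *
        ‖G (fun n => θ' (n + 1)) (ξ / 3)‖ := by
      rw [← norm_mul, ← G_rec hθ']
    rw [g1, g2]
    have e : ‖(1 / 3 : ℂ) * (1 + Complex.exp ((θ' 0 : ℂ) * Complex.I) *
        Complex.exp (-(Complex.I * (ξ / 3 : ℝ))) + Complex.exp (-(Complex.I * (ξ / 3 : ℝ) * 2)))‖ =
        ‖(1 / 3 : ℂ) * (1 + Complex.exp ((θ 0 : ℂ) * Complex.I) *
        Complex.exp (-(Complex.I * (ξ / 3 : ℝ))) + Complex.exp (-(Complex.I * (ξ / 3 : ℝ) * 2)))‖ := by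
      rw [norm_mul, norm_mul, factor_norm_eq (θ' 0) (θ 0) ξ (h 0).symm]
    rw [e, ← mul_sub, abs_mul, abs_of_nonneg (norm_nonneg _)]
    have h1 := factor_norm_le (θ 0) ξ
    have h2 : ∑' n, |θ (n + N + 1)| = ∑' n, |θ (n + (N + 1))| := rfl
    calc _ ≤ 1 * |‖G (fun n => θ (n + 1)) (ξ / 3)‖ - ‖G (fun n => θ' (n + 1)) (ξ / 3)‖| := by
          gcongr
      _ ≤ 2 * ∑' n, |θ (n + (N + 1))| := by
          rw [one_mul, ← h2]
          exact this

lemma norm_G_eq {θ θ' : ℕ → ℝ} (hθ : Summable fun n => |θ n|)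
    (hθ' : Summable fun n => |θ' n|) (h : ∀ n, |θ n| = |θ' n|) (ξ : ℝ) :
    ‖G θ ξ‖ = ‖G θ' ξ‖ := by
  have hlim : Tendsto (fun N => 2 * ∑' n, |θ (n + N)|) atTop (𝓝 0) := by
    have := (tendsto_sum_nat_add (fun n => |θ n|)).const_mul 2
    simpa using this
  have h1 : |‖G θ ξ‖ - ‖G θ' ξ‖| ≤ 0 :=
    ge_of_tendsto' hlim (fun N => norm_G_sub_le' N hθ hθ' h ξ)
  have h2 := abs_nonpos_iff.1 h1
  linarith

/-! ### The Cantor family -/

/-- The signed sequence `± 2^{-n}`. -/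
def seq (σ : ℕ → Bool) (n : ℕ) : ℝ := (if σ n then 1 else -1) * (1 / 2) ^ n

lemma abs_seq (σ : ℕ → Bool) (n : ℕ) : |seq σ n| = (1 / 2) ^ n := by
  unfold seq
  rw [abs_mul, abs_of_pos (by positivity : (0 : ℝ) < (1 / 2) ^ n)]
  split_ifs <;> simp

lemma summable_seq (σ : ℕ → Bool) : Summable fun n => |seq σ n| := by
  simp_rw [abs_seq]
  exact summable_geometric_two

lemma memLp_fn (σ : ℕ → Bool) : MemLp (fn (seq σ)) 2 volume := by
  have h1 : MemLp (fun x : ℝ => (Ico (0 : ℝ) 1).indicator (fun _ => (1 : ℂ)) x) 2 volume :=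
    memLp_indicator_const 2 measurableSet_Ico 1 (Or.inr (by simp))
  refine h1.of_le (measurable_fn (summable_seq σ)).aestronglyMeasurable ?_
  filter_upwards with x
  rw [norm_fn]
  by_cases hx : x ∈ Ico (0 : ℝ) 1
  · rw [if_pos hx, indicator_of_mem hx]; simp
  · rw [if_neg hx, indicator_of_notMem hx]; simp

/-- The elements of the Pauli set. -/
def elt (σ : ℕ → Bool) : Lp ℂ 2 (volume : Measure ℝ) := (memLp_fn σ).toLp _

lemma coe_elt (σ : ℕ → Bool) : (elt σ : ℝ → ℂ) =ᵐ[volume] fn (seq σ) := (memLp_fn σ).coeFn_toLp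

lemma FT_elt (σ : ℕ → Bool) (x : ℝ) : FT (elt σ) x = G (seq σ) x := by
  rw [← FT_fn]
  unfold FT
  apply integral_congr_ae
  filter_upwards [coe_elt σ] with y hy
  rw [hy]

/-- Shifting by `3^{-(m+1)}` from the set where the `m`-th digit is `0`. -/
lemma dig_shift (m n : ℕ) (x : ℝ) (hx : ⌊(3 : ℝ) ^ (m + 1) * x⌋ % 3 = 0) :
    dig n (x + 1 / 3 ^ (m + 1)) = if n = m then 1 else dig n x := by
  unfold dig
  rcases lt_trichotomy n m with h | h | h
  · -- coarser digits unchanged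
    rw [if_neg h.ne]
    obtain ⟨k, hk⟩ : ∃ k : ℕ, m = n + 1 + k := ⟨m - (n + 1), by omega⟩
    have e1 : (3 : ℝ) ^ (n + 1) * (x + 1 / 3 ^ (m + 1)) =
        (3 : ℝ) ^ (n + 1) * x + 1 / 3 ^ (k + 1) := by
      rw [mul_add, hk, show n + 1 + k + 1 = (n + 1) + (k + 1) by ring, pow_add (3 : ℝ) (n + 1) (k + 1)]
      field_simp
    have e2 : (3 : ℝ) ^ (m + 1) * x = 3 ^ (k + 1) * ((3 : ℝ) ^ (n + 1) * x) := by
      rw [hk, show n + 1 + k + 1 = (k + 1) + (n + 1) by ring, pow_add (3 : ℝ) (k + 1) (n + 1)]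
      ring
    rw [e1]
    have hfl : ⌊(3 : ℝ) ^ (n + 1) * x + 1 / 3 ^ (k + 1)⌋ = ⌊(3 : ℝ) ^ (n + 1) * x⌋ := by
      set u := (3 : ℝ) ^ (n + 1) * x with hu
      rw [Int.floor_eq_iff]
      have hu1 := Int.floor_le u
      have hu2 := Int.lt_floor_add_one u
      refine ⟨by have : (0 : ℝ) < 1 / 3 ^ (k + 1) := by positivity
                 linarith, ?_⟩
      -- let `q = ⌊3^(k+1) u⌋`, divisible by 3, and `q < 3^(k+1) (⌊u⌋+1)`, so `q + 2 < ...`
      rw [e2] at hx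
      set q := ⌊(3 : ℝ) ^ (k + 1) * u⌋ with hq
      have hq1 : (3 : ℝ) ^ (k + 1) * u < q + 1 := Int.lt_floor_add_one _
      have hq2 : (q : ℝ) ≤ (3 : ℝ) ^ (k + 1) * u := Int.floor_le _
      have hlt : (q : ℝ) < ((3 ^ (k + 1) * (⌊u⌋ + 1) : ℤ) : ℝ) := by
        push_cast
        have : (3 : ℝ) ^ (k + 1) * u < (3 : ℝ) ^ (k + 1) * (⌊u⌋ + 1) := by gcongr
        linarith
      have hlt' : q < 3 ^ (k + 1) * (⌊u⌋ + 1) := by exact_mod_cast hlt
      have hdiv : (3 : ℤ) ∣ 3 ^ (k + 1) * (⌊u⌋ + 1) := ⟨3 ^ k * (⌊u⌋ + 1), by ring⟩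
      have hle : q + 2 < 3 ^ (k + 1) * (⌊u⌋ + 1) := by omega
      have hle' : (q : ℝ) + 2 < (3 : ℝ) ^ (k + 1) * (⌊u⌋ + 1) := by exact_mod_cast hle
      have h3 : (3 : ℝ) ^ (k + 1) * u + 1 < (3 : ℝ) ^ (k + 1) * (⌊u⌋ + 1) := by linarith
      have h4 : (0 : ℝ) < 3 ^ (k + 1) := by positivity
      have h5 : (3 : ℝ) ^ (k + 1) * (u + 1 / 3 ^ (k + 1)) < (3 : ℝ) ^ (k + 1) * (⌊u⌋ + 1) := by
        rw [mul_add, mul_one_div_cancel h4.ne']
        exact h3
      exact lt_of_mul_lt_mul_left h5 h4.le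
    rw [hfl]
  · subst h
    rw [if_pos rfl]
    have e1 : (3 : ℝ) ^ (n + 1) * (x + 1 / 3 ^ (n + 1)) = (3 : ℝ) ^ (n + 1) * x + ((1 : ℤ) : ℝ) := by
      rw [mul_add]
      push_cast
      field_simp
    rw [e1, Int.floor_add_intCast, if_pos (by omega)]
  · rw [if_neg h.ne']
    obtain ⟨k, hk⟩ : ∃ k : ℕ, n = m + 1 + k := ⟨n - (m + 1), by omega⟩
    have e1 : (3 : ℝ) ^ (n + 1) * (x + 1 / 3 ^ (m + 1)) =
        (3 : ℝ) ^ (n + 1) * x + ((3 ^ (k + 1) : ℤ) : ℝ) := by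
      rw [mul_add, hk, show m + 1 + k + 1 = (m + 1) + (k + 1) by ring, pow_add (3 : ℝ) (m + 1) (k + 1)]
      push_cast
      field_simp
    rw [e1, Int.floor_add_intCast]
    have : (⌊(3 : ℝ) ^ (n + 1) * x⌋ + 3 ^ (k + 1)) % 3 = ⌊(3 : ℝ) ^ (n + 1) * x⌋ % 3 := by
      rw [show (3 : ℤ) ^ (k + 1) = 3 * 3 ^ k by ring]
      exact Int.add_mul_emod_self_left _ _ _
    rw [this]

lemma Phi_shift {θ : ℕ → ℝ} (hθ : Summable fun n => |θ n|) (m : ℕ) (x : ℝ)
    (hx : ⌊(3 : ℝ) ^ (m + 1) * x⌋ % 3 = 0) :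
    Phi θ (x + 1 / 3 ^ (m + 1)) = Phi θ x + θ m := by
  unfold Phi
  have h0 : dig m x = 0 := by
    unfold dig
    rw [if_neg (by omega)]
  have e : (fun n => θ n * dig n (x + 1 / 3 ^ (m + 1))) =
      fun n => θ n * dig n x + (if n = m then θ m else 0) := by
    funext n
    rw [dig_shift m n x hx]
    by_cases h : n = m
    · subst h
      rw [if_pos rfl, if_pos rfl, h0]
      ring
    · rw [if_neg h, if_neg h, add_zero]
  have hs : Summable (fun n => if n = m then θ m else 0) := by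
    refine (hasSum_ite_eq m (θ m)).summable
  rw [e, Summable.tsum_add (summable_Phi hθ x) hs, tsum_ite_eq]

lemma elt_independent (σ τ : ℕ → Bool) (h : σ ≠ τ) : LinearIndependent ℂ ![elt σ, elt τ] := by
  rw [LinearIndependent.pair_iff]
  intro a b hab
  obtain ⟨m, hm⟩ : ∃ m, σ m ≠ τ m := by
    by_contra hcon
    push Not at hcon
    exact h (funext hcon)
  have hae : ∀ᵐ x : ℝ, a * fn (seq σ) x + b * fn (seq τ) x = 0 := by
    have h1 : ((a • elt σ + b • elt τ : Lp ℂ 2 (volume : Measure ℝ)) : ℝ → ℂ) =ᵐ[volume] 0 := by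
      rw [hab]
      exact Lp.coeFn_zero _ _ _
    filter_upwards [h1, Lp.coeFn_add (a • elt σ) (b • elt τ), Lp.coeFn_smul a (elt σ),
      Lp.coeFn_smul b (elt τ), coe_elt σ, coe_elt τ] with x h1 h2 h3 h4 h5 h6
    rw [h2, Pi.add_apply, h3, h4, Pi.smul_apply, Pi.smul_apply, h5, h6] at h1
    simpa using h1
  -- translate
  have hae2 : ∀ᵐ x : ℝ, a * fn (seq σ) (x + 1 / 3 ^ (m + 1)) +
      b * fn (seq τ) (x + 1 / 3 ^ (m + 1)) = 0 := by
    have hq : Measure.QuasiMeasurePreserving (fun x : ℝ => x + 1 / 3 ^ (m + 1)) volume volume :=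
      (measurePreserving_add_right volume (1 / 3 ^ (m + 1) : ℝ)).quasiMeasurePreserving
    exact hq.ae hae
  -- a point in the first triadic interval where both hold
  have hpos : 0 < volume (Ioo (0 : ℝ) (1 / 3 ^ (m + 1))) := by
    rw [Real.volume_Ioo]
    simp
  have hne : (volume.restrict (Ioo (0 : ℝ) (1 / 3 ^ (m + 1)))) ≠ 0 := by
    rw [Ne, Measure.restrict_eq_zero]
    exact hpos.ne'
  have : (ae (volume.restrict (Ioo (0 : ℝ) (1 / 3 ^ (m + 1))))).NeBot := ae_neBot.2 hne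
  have hall : ∀ᵐ x ∂(volume.restrict (Ioo (0 : ℝ) (1 / 3 ^ (m + 1)))),
      (a * fn (seq σ) x + b * fn (seq τ) x = 0) ∧
      (a * fn (seq σ) (x + 1 / 3 ^ (m + 1)) + b * fn (seq τ) (x + 1 / 3 ^ (m + 1)) = 0) ∧
      x ∈ Ioo (0 : ℝ) (1 / 3 ^ (m + 1)) := by
    filter_upwards [ae_restrict_of_ae hae, ae_restrict_of_ae hae2,
      ae_restrict_mem measurableSet_Ioo] with x h1 h2 h3
    exact ⟨h1, h2, h3⟩
  obtain ⟨x, hx1, hx2, hx3⟩ := hall.exists
  have h3pos : (0 : ℝ) < 3 ^ (m + 1) := by positivity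
  have h3le : (3 : ℝ) ≤ 3 ^ (m + 1) := by
    calc (3 : ℝ) = 3 ^ 1 := by norm_num
      _ ≤ 3 ^ (m + 1) := pow_le_pow_right₀ (by norm_num) (by omega)
  have hfrac : 1 / (3 : ℝ) ^ (m + 1) ≤ 1 / 3 := one_div_le_one_div_of_le (by norm_num) h3le
  have hxI : x ∈ Ico (0 : ℝ) 1 := ⟨hx3.1.le, by linarith [hx3.2]⟩
  have hxI' : x + 1 / 3 ^ (m + 1) ∈ Ico (0 : ℝ) 1 :=
    ⟨by have := hx3.1; positivity, by linarith [hx3.2]⟩
  have hdig : ⌊(3 : ℝ) ^ (m + 1) * x⌋ % 3 = 0 := by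
    have : ⌊(3 : ℝ) ^ (m + 1) * x⌋ = 0 := by
      rw [Int.floor_eq_zero_iff]
      refine ⟨mul_nonneg h3pos.le hx3.1.le, ?_⟩
      have := hx3.2
      rw [lt_div_iff₀ h3pos] at this
      linarith
    rw [this]
    rfl
  unfold fn at hx1 hx2
  rw [indicator_of_mem hxI, indicator_of_mem hxI] at hx1
  rw [indicator_of_mem hxI', indicator_of_mem hxI'] at hx2
  rw [Phi_shift (summable_seq σ) m x hdig, Phi_shift (summable_seq τ) m x hdig] at hx2
  -- phases
  set A := Complex.exp ((Phi (seq σ) x : ℂ) * Complex.I) with hA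
  set B := Complex.exp ((Phi (seq τ) x : ℂ) * Complex.I) with hB
  have hA0 : A ≠ 0 := Complex.exp_ne_zero _
  have hB0 : B ≠ 0 := Complex.exp_ne_zero _
  have e1 : Complex.exp (((Phi (seq σ) x + seq σ m : ℝ) : ℂ) * Complex.I) =
      A * Complex.exp ((seq σ m : ℂ) * Complex.I) := by
    rw [hA, ← Complex.exp_add]; congr 1; push_cast; ring
  have e2 : Complex.exp (((Phi (seq τ) x + seq τ m : ℝ) : ℂ) * Complex.I) =
      B * Complex.exp ((seq τ m : ℂ) * Complex.I) := by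
    rw [hB, ← Complex.exp_add]; congr 1; push_cast; ring
  rw [e1, e2] at hx2
  have hopp : seq τ m = - seq σ m := by
    unfold seq
    cases h1 : σ m <;> cases h2 : τ m <;> simp_all
  rw [hopp] at hx2
  have hdiff : Complex.exp ((seq σ m : ℂ) * Complex.I) -
      Complex.exp (((-seq σ m : ℝ) : ℂ) * Complex.I) ≠ 0 := by
    intro h0
    have h1 := congrArg Complex.im h0
    rw [Complex.sub_im, Complex.exp_ofReal_mul_I_im, Complex.exp_ofReal_mul_I_im, Real.sin_neg,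
      Complex.zero_im] at h1
    have h2 : Real.sin (seq σ m) = 0 := by linarith
    have h3 : |seq σ m| = (1 / 2) ^ m := abs_seq σ m
    have h4 : 0 < |seq σ m| := by rw [h3]; positivity
    have h5 : |seq σ m| ≤ 1 := by rw [h3]; exact pow_le_one₀ (by norm_num) (by norm_num)
    have h6 : Real.sin |seq σ m| = 0 := by
      rcases abs_cases (seq σ m) with ⟨hc, _⟩ | ⟨hc, _⟩ <;> rw [hc]
      · exact h2
      · rw [Real.sin_neg, h2, neg_zero]
    have h7 := Real.sin_pos_of_pos_of_lt_pi h4 (by linarith [Real.pi_gt_three])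
    linarith
  have hb0 : b * B * (Complex.exp ((seq σ m : ℂ) * Complex.I) -
      Complex.exp (((-seq σ m : ℝ) : ℂ) * Complex.I)) = 0 := by
    linear_combination Complex.exp ((seq σ m : ℂ) * Complex.I) * hx1 - hx2
  have hb : b = 0 := by
    rcases mul_eq_zero.1 hb0 with h1 | h1
    · exact (mul_eq_zero.1 h1).resolve_right hB0
    · exact absurd h1 hdiff
  rw [hb, zero_mul, add_zero] at hx1
  exact ⟨(mul_eq_zero.1 hx1).resolve_right hA0, hb⟩

lemma elt_injective : Function.Injective elt := by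
  intro σ τ h
  by_contra hne
  have h1 := elt_independent σ τ hne
  rw [h] at h1
  have := h1.injective.ne (show (0 : Fin 2) ≠ 1 by norm_num)
  simp at this

lemma elt_pair (σ τ : ℕ → Bool) (h : σ ≠ τ) : IsPauliPair (elt σ) (elt τ) := by
  refine ⟨elt_independent σ τ h, ?_, ?_⟩
  · filter_upwards [coe_elt σ, coe_elt τ] with x h1 h2
    rw [h1, h2, norm_fn, norm_fn]
  · filter_upwards with x
    rw [FT_elt, FT_elt]
    exact norm_G_eq (summable_seq σ) (summable_seq τ)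
      (fun n => by rw [abs_seq, abs_seq]) x

/-- flip one sign -/
def flip (σ : ℕ → Bool) (k : ℕ) : ℕ → Bool := Function.update σ k (!(σ k))

lemma flip_ne (σ : ℕ → Bool) (k : ℕ) : flip σ k ≠ σ := by
  intro h
  have := congrFun h k
  simp [flip] at this

lemma norm_elt_flip_le (σ : ℕ → Bool) (k : ℕ) :
    ‖elt (flip σ k) - elt σ‖ ≤ 2 * (1 / 2) ^ k := by
  have h1 : elt (flip σ k) - elt σ = ((memLp_fn (flip σ k)).sub (memLp_fn σ)).toLp _ := by
    unfold elt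
    rw [MemLp.toLp_sub]
  rw [h1, Lp.norm_toLp]
  have hbound : ∀ x : ℝ, ‖(fn (seq (flip σ k)) - fn (seq σ)) x‖ ≤
      ‖(Ico (0 : ℝ) 1).indicator (fun _ => ((2 * (1 / 2) ^ k : ℝ) : ℝ)) x‖ := by
    intro x
    rw [Pi.sub_apply]
    unfold fn
    by_cases hx : x ∈ Ico (0 : ℝ) 1
    · rw [indicator_of_mem hx, indicator_of_mem hx, indicator_of_mem hx]
      have hd : Phi (seq (flip σ k)) x - Phi (seq σ) x =
          (seq (flip σ k) k - seq σ k) * dig k x := by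
        unfold Phi
        rw [← Summable.tsum_sub (summable_Phi (summable_seq _) x) (summable_Phi (summable_seq _) x)]
        rw [tsum_eq_single k]
        · ring
        · intro n hn
          have : seq (flip σ k) n = seq σ n := by
            unfold seq flip
            rw [Function.update_of_ne hn]
          rw [this]
          ring
      have e1 : Complex.exp ((Phi (seq (flip σ k)) x : ℂ) * Complex.I) -
          Complex.exp ((Phi (seq σ) x : ℂ) * Complex.I) =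
          Complex.exp ((Phi (seq σ) x : ℂ) * Complex.I) *
          (Complex.exp (Complex.I * ((Phi (seq (flip σ k)) x - Phi (seq σ) x : ℝ) : ℂ)) - 1) := by
        rw [mul_sub, mul_one, ← Complex.exp_add]
        congr 2
        push_cast
        ring
      rw [e1, norm_mul, Complex.norm_exp_ofReal_mul_I, one_mul]
      refine Real.norm_exp_I_mul_ofReal_sub_one_le.trans ?_
      rw [hd, Real.norm_eq_abs, Real.norm_eq_abs, abs_mul, abs_of_nonneg (dig_nonneg k x),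
        abs_of_pos (by positivity : (0 : ℝ) < 2 * (1 / 2) ^ k)]
      have h2 : |seq (flip σ k) k - seq σ k| ≤ 2 * (1 / 2) ^ k := by
        calc |seq (flip σ k) k - seq σ k| ≤ |seq (flip σ k) k| + |seq σ k| := abs_sub _ _
          _ = 2 * (1 / 2) ^ k := by rw [abs_seq, abs_seq]; ring
      have h3 := dig_le_one k x
      have h4 := dig_nonneg k x
      have h5 := abs_nonneg (seq (flip σ k) k - seq σ k)
      nlinarith
    · rw [indicator_of_notMem hx, indicator_of_notMem hx, indicator_of_notMem hx]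
      simp
  have h2 : eLpNorm (fn (seq (flip σ k)) - fn (seq σ)) 2 volume ≤
      eLpNorm ((Ico (0 : ℝ) 1).indicator (fun _ => ((2 * (1 / 2) ^ k : ℝ) : ℝ))) 2 volume :=
    eLpNorm_mono hbound
  rw [eLpNorm_indicator_const measurableSet_Ico (by norm_num) (by norm_num)] at h2
  have h3 : ‖(2 * (1 / 2) ^ k : ℝ)‖ₑ * volume (Ico (0 : ℝ) 1) ^ (1 / (2 : ENNReal).toReal) =
      ENNReal.ofReal (2 * (1 / 2) ^ k) := by
    rw [Real.volume_Ico, sub_zero, ENNReal.ofReal_one, ENNReal.one_rpow, mul_one,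
      Real.enorm_eq_ofReal (by positivity)]
  rw [h3] at h2
  exact ENNReal.toReal_le_of_le_ofReal (by positivity) h2

/-- **Main theorem.** There is a Pauli set of functions with bounded support that is uncountable
and in which every point is an accumulation point (in the `L²` norm). -/
theorem result : ∃ P : Set (Lp ℂ 2 (volume : Measure ℝ)), IsBoundedPauliSet P ∧ ¬ P.Countable ∧
    ∀ f ∈ P, ∀ ε > 0, ∃ g ∈ P, g ≠ f ∧ ‖g - f‖ < ε := by
  refine ⟨Set.range elt, ⟨?_, ?_, ?_⟩, ?_, ?_⟩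
  · refine ⟨elt (fun _ => true), ⟨_, rfl⟩, elt (fun _ => false), ⟨_, rfl⟩, ?_⟩
    intro h
    have := congrFun (elt_injective h) 0
    simp at this
  · rintro f ⟨σ, rfl⟩
    refine ⟨1, ?_⟩
    filter_upwards [coe_elt σ] with x hx h1
    rw [hx]
    unfold fn
    rw [indicator_of_notMem]
    intro hmem
    have : |x| < 1 := by
      rw [abs_of_nonneg hmem.1]
      exact hmem.2
    linarith
  · rintro f ⟨σ, rfl⟩ g ⟨τ, rfl⟩ hne
    exact elt_pair σ τ (fun h => hne (by rw [h]))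
  · intro hc
    have h1 : Countable (Set.range elt) := hc.to_subtype
    have h2 : Countable (ℕ → Bool) :=
      Function.Injective.countable (f := Set.rangeFactorization elt)
        (fun a b h => elt_injective (congrArg Subtype.val h))
    obtain ⟨f, hf⟩ := exists_surjective_nat (ℕ → Bool)
    obtain ⟨n, hn⟩ := hf (fun k => !(f k k))
    have h3 := congrFun hn n
    simp at h3
  · rintro f ⟨σ, rfl⟩ ε hε
    obtain ⟨k, hk⟩ := exists_pow_lt_of_lt_one (show (0 : ℝ) < ε / 2 by linarith)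
      (show (1 / 2 : ℝ) < 1 by norm_num)
    refine ⟨elt (flip σ k), ⟨_, rfl⟩, fun h => flip_ne σ k (elt_injective h), ?_⟩
    refine (norm_elt_flip_le σ k).trans_lt ?_
    linarith

end Pool.Agent.Results.MP_d886ff_an.UncountablePauliSet
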